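import Mathlib

/-!
# The Monster (Semple) tower in affine charts

`𝒫^0(n) = ℂ^n`, `Δ_0 = Tℂ^n`, and `𝒫^{k+1}(n) = ℙΔ_k` with `Δ_{k+1}(z, ℓ) = (dπ)⁻¹(ℓ)`.

Suppose that on an open subset `Z` of a coordinate space the rank `n` distribution `Δ` has a frame,
that is, an isomorphism `X_z : ℂ^n → Δ(z)` for every `z`. A line in `Δ(z)` is spanned by `X_z(v)` for
some `v ≠ 0` in `ℂ^n`; for some index `i` the coordinate `v_i` is not zero, and then `v` may be
normalised to `v_i = 1`. So `ℙΔ` is covered by the `n` charts with coordinates `(z, v)`, `v_i = 1`.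
In the `i`-th chart the vectors of `Δ^1` at `(z, v)` are the `(ż, v̇)` with `ż = a X_z(v)`, `a ∈ ℂ`,
and `v̇_i = 0`; a frame of `Δ^1` is given by `u ↦ (u_i X_z(v), u - u_i e_i)`.

Iterating, `𝒫^k(n)` is covered by the charts given by the words `i 1, …, i k` in the indices
`1, …, n`; the coordinates in such a chart are `(z 0, z 1, …, z k)` with `z 0 ∈ ℂ^n` and
`z j ∈ ℂ^n`, `(z j) (i j) = 1` for `j ≥ 1`. Every point of `𝒫^k(n)` lies in one of these charts.
-/

set_option autoImplicit false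

open Filter Topology

namespace Pool.Agent.R861.MT

/-- The coordinate space `(ℂ^n)^{k+1}` of the charts of `𝒫^k(n)`. -/
abbrev Coord (n k : ℕ) : Type := Fin (k + 1) → Fin n → ℂ

variable {n : ℕ}

/-- The image of the chart of `𝒫^k(n)` with the word `i 1, …, i k`: `(z j) (i j) = 1` for
`1 ≤ j ≤ k`. (The letter `i 0` is not used.) -/
def InChart (i : ℕ → Fin n) {k : ℕ} (z : Coord n k) : Prop :=
  ∀ j : Fin (k + 1), j ≠ 0 → z j (i j) = 1

/-- The frame of `Δ_k` in the chart with the word `i`: the vector of `Δ_k(z)` with the coordinates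
`u ∈ ℂ^n`. For `k = 0` it is `u`, and for `k + 1` it is `(u_i X(v), u - u_i e_i)`, where
`i = i (k + 1)`, `X(v)` is the vector of `Δ_k` at the projection of `z` to `𝒫^k(n)` with the
coordinates `v = z (k + 1)`, and `e_i` is the `i`-th unit vector. -/
noncomputable def frame (i : ℕ → Fin n) : (k : ℕ) → Coord n k → (Fin n → ℂ) → Coord n k
  | 0, _, u => fun _ => u
  | k + 1, z, u => Fin.snoc (α := fun _ => Fin n → ℂ)
      (frame i k (Fin.init z) (u (i (k + 1)) • z (Fin.last (k + 1))))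
      (u - Pi.single (i (k + 1)) (u (i (k + 1))))

/-- The vector `w` is tangent to the set `M` at the point `q`: it is the velocity of an analytic
curve in `M`. -/
def TangentTo {k : ℕ} (M : Set (Coord n k)) (q w : Coord n k) : Prop :=
  ∃ c : ℂ → Coord n k, AnalyticAt ℂ c 0 ∧ c 0 = q ∧ deriv c 0 = w ∧ ∀ᶠ t in 𝓝 (0 : ℂ), c t ∈ M

/-- The fibre of `𝒫^{k+1}(n) → 𝒫^k(n)` through `p`. -/
def fiberThrough (i : ℕ → Fin n) {k : ℕ} (p : Coord n (k + 1)) : Set (Coord n (k + 1)) :=
  {q | InChart i q ∧ Fin.init q = Fin.init p}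

/-- The prolongation of a submanifold `M` of `𝒫^k(n)` with the distribution `TM ∩ Δ_k`: the set of
the points `(q, ℓ)` of `𝒫^{k+1}(n)` such that `q ∈ M` and the line `ℓ` of `Δ_k(q)` is tangent to
`M`. -/
def prolong (i : ℕ → Fin n) {k : ℕ} (M : Set (Coord n k)) : Set (Coord n (k + 1)) :=
  {q | InChart i q ∧ Fin.init q ∈ M ∧
    TangentTo M (Fin.init q) (frame i k (Fin.init q) (q (Fin.last (k + 1))))}

/-- The set of the submanifolds `𝒫^{k-j}(F_j)`, `1 ≤ j ≤ k`, of `𝒫^k(n)` that contain `p`, where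
`F_j` is the fibre of `𝒫^j(n) → 𝒫^{j-1}(n)` through the image of `p`. -/
def criticalSubmanifolds (i : ℕ → Fin n) : (k : ℕ) → Coord n k → Set (Set (Coord n k))
  | 0, _ => ∅
  | k + 1, p => {M | M = fiberThrough i p ∨
      ∃ M' ∈ criticalSubmanifolds i k (Fin.init p), M = prolong i M' ∧ p ∈ M}

/-- The vector `w` of `Δ_k(p)` is not zero and spans a regular line: it lies in none of the critical
hyperplanes `T_p 𝒫^{k-j}(F_j) ∩ Δ_k(p)`. -/
def IsRegularVector (i : ℕ → Fin n) {k : ℕ} (p w : Coord n k) : Prop :=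
  w ≠ 0 ∧ ∀ M ∈ criticalSubmanifolds i k p, ¬ TangentTo M p w

/-- The germ at `0` of the analytic curve `c` in (a chart of) `𝒫^k(n)` is the `k`-th prolongation of
its image in `ℂ^n`: `c = (c', ℓ)` where `c'` is the `(k - 1)`-th prolongation, and for all `t` near
`0` the velocity of `c'` at `t` lies in the line `ℓ(t)`. (If the image in `ℂ^n` is not constant,
then the velocity of `c'` is not zero for `t ≠ 0`, so `ℓ(t)` is the line spanned by it, and `ℓ(0)` is
the limit.) -/
def IsProlongation (i : ℕ → Fin n) : (k : ℕ) → (ℂ → Coord n k) → Prop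
  | 0, _ => True
  | k + 1, c => IsProlongation i k (fun t => Fin.init (c t)) ∧ ∀ᶠ t in 𝓝 (0 : ℂ), ∃ a : ℂ,
      deriv (fun s => (Fin.init (c s) : Coord n k)) t
        = a • frame i k (Fin.init (c t)) (c t (Fin.last (k + 1)))

/-- `Germ(p)` for the point `p` of `𝒫^k(n)` with the coordinates `p` in the chart with the word `i`:
the nonconstant analytic germs `γ : (ℂ, 0) → ℂ^n` such that `γ^k(0) = p` and `γ^k` is regular at
`0`. -/
def Germ (i : ℕ → Fin n) {k : ℕ} (p : Coord n k) : Set (ℂ → Fin n → ℂ) :=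
  {γ | AnalyticAt ℂ γ 0 ∧ (¬ ∀ᶠ t in 𝓝 (0 : ℂ), γ t = γ 0) ∧
    ∃ c : ℂ → Coord n k, AnalyticAt ℂ c 0 ∧ (∀ᶠ t in 𝓝 (0 : ℂ), InChart i (c t) ∧ c t 0 = γ t) ∧
      IsProlongation i k c ∧ c 0 = p ∧ IsRegularVector i p (deriv c 0)}

/-- The multiplicity of a curve germ: the least order at `0` of the coordinate functions
`γ_j(t) - γ_j(0)`, that is, the order of the vector valued function `γ(t) - γ(0)`. -/
noncomputable def mult (γ : ℂ → Fin n → ℂ) : ℕ∞ := analyticOrderAt (fun t => γ t - γ 0) 0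

end Pool.Agent.R861.MT
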