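import Mathlib
import Pool.Agent.R861.MT.Defs

/-! Coordinates of the prolongations, and the recursion for the orders. -/

set_option autoImplicit false

open Filter Topology

namespace Pool.Agent.R861.MT

variable {n : ℕ}

theorem inChart_succ {i : ℕ → Fin n} {k : ℕ} {z : Coord n (k + 1)} :
    InChart i z ↔ InChart i (Fin.init z : Coord n k) ∧ z (Fin.last (k + 1)) (i (k + 1)) = 1 := by
  constructor
  · intro h
    refine ⟨fun j hj => ?_, ?_⟩
    · have := h j.castSucc (by
        intro h0
        apply hj
        apply Fin.castSucc_injective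
        rw [h0]; rfl)
      simpa [Fin.init] using this
    · have := h (Fin.last (k + 1)) (Fin.last_pos.ne')
      simpa using this
  · rintro ⟨h1, h2⟩ j hj
    induction j using Fin.lastCases with
    | last => simpa using h2
    | cast j =>
      have := h1 j (by rintro rfl; exact hj rfl)
      simpa [Fin.init] using this

theorem frame_succ (i : ℕ → Fin n) (k : ℕ) (z : Coord n (k + 1)) (u : Fin n → ℂ) :
    frame i (k + 1) z u = Fin.snoc (α := fun _ => Fin n → ℂ)
      (frame i k (Fin.init z) (u (i (k + 1)) • z (Fin.last (k + 1))))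
      (u - Pi.single (i (k + 1)) (u (i (k + 1)))) := rfl

theorem frame_succ_init (i : ℕ → Fin n) (k : ℕ) (z : Coord n (k + 1)) (u : Fin n → ℂ) :
    (Fin.init (frame i (k + 1) z u) : Coord n k)
      = frame i k (Fin.init z) (u (i (k + 1)) • z (Fin.last (k + 1))) := by
  rw [frame_succ]
  exact Fin.init_snoc _ _

theorem frame_succ_last (i : ℕ → Fin n) (k : ℕ) (z : Coord n (k + 1)) (u : Fin n → ℂ) :
    frame i (k + 1) z u (Fin.last (k + 1)) = u - Pi.single (i (k + 1)) (u (i (k + 1))) := by
  rw [frame_succ]
  exact Fin.snoc_last _ _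

theorem coord_ext {k : ℕ} {z w : Coord n (k + 1)} (h1 : (Fin.init z : Coord n k) = Fin.init w)
    (h2 : z (Fin.last (k + 1)) = w (Fin.last (k + 1))) : z = w := by
  rw [← Fin.snoc_init_self z, ← Fin.snoc_init_self w, h1, h2]

theorem frame_smul (i : ℕ → Fin n) (k : ℕ) (z : Coord n k) (a : ℂ) (u : Fin n → ℂ) :
    frame i k z (a • u) = a • frame i k z u := by
  induction k generalizing u with
  | zero => rfl
  | succ k ih =>
    apply coord_ext
    · have h : (Fin.init (a • frame i (k + 1) z u) : Coord n k)
          = a • (Fin.init (frame i (k + 1) z u) : Coord n k) := rfl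
      rw [h, frame_succ_init, frame_succ_init, ← ih, Pi.smul_apply, smul_smul, smul_eq_mul]
    · rw [Pi.smul_apply, frame_succ_last, frame_succ_last, smul_sub, ← Pi.single_smul]
      rfl

theorem frame_add (i : ℕ → Fin n) (k : ℕ) (z : Coord n k) (u v : Fin n → ℂ) :
    frame i k z (u + v) = frame i k z u + frame i k z v := by
  induction k generalizing u v with
  | zero => rfl
  | succ k ih =>
    apply coord_ext
    · have h : (Fin.init (frame i (k + 1) z u + frame i (k + 1) z v) : Coord n k)
          = (Fin.init (frame i (k + 1) z u) : Coord n k) + Fin.init (frame i (k + 1) z v) := rfl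
      rw [h, frame_succ_init, frame_succ_init, frame_succ_init, ← ih, Pi.add_apply, add_smul]
    · rw [Pi.add_apply, frame_succ_last, frame_succ_last, frame_succ_last, Pi.add_apply,
        Pi.single_add]
      abel

theorem frame_zero (i : ℕ → Fin n) (k : ℕ) (z : Coord n k) : frame i k z 0 = 0 := by
  have := frame_smul i k z 0 0
  simpa using this

theorem frame_eq_zero {i : ℕ → Fin n} {k : ℕ} {z : Coord n k} (hz : InChart i z)
    {u : Fin n → ℂ} (hu : frame i k z u = 0) : u = 0 := by
  induction k generalizing u with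
  | zero => exact congrFun hu 0
  | succ k ih =>
    obtain ⟨h1, h2⟩ := inChart_succ.1 hz
    have h3 := frame_succ_init i k z u
    rw [hu] at h3
    have h4 := ih h1 h3.symm
    have h5 : u (i (k + 1)) = 0 := by
      have := congrFun h4 (i (k + 1))
      rw [Pi.smul_apply, h2, smul_eq_mul, mul_one] at this
      exact this
    have h6 := frame_succ_last i k z u
    rw [hu, h5, Pi.single_zero, sub_zero] at h6
    exact h6.symm

theorem frame_injective {i : ℕ → Fin n} {k : ℕ} {z : Coord n k} (hz : InChart i z)
    {u v : Fin n → ℂ} (huv : frame i k z u = frame i k z v) : u = v := by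
  have h1 : frame i k z (u + (-1 : ℂ) • v) = 0 := by
    rw [frame_add, frame_smul, huv]
    simp
  have h2 := frame_eq_zero hz h1
  rw [neg_one_smul, ← sub_eq_add_neg] at h2
  exact sub_eq_zero.1 h2

/-- the coordinates of the velocity with respect to the frames, from the components -/
noncomputable def ctrl (i : ℕ → Fin n) (V : ℕ → ℂ → Fin n → ℂ) : ℕ → ℂ → Fin n → ℂ
  | 0 => fun t => deriv (V 0) t
  | j + 1 => fun t => deriv (V (j + 1)) t + Pi.single (i (j + 1)) (ctrl i V j t (i (j + 1)))

theorem analyticAt_ctrl (i : ℕ → Fin n) {V : ℕ → ℂ → Fin n → ℂ} {k : ℕ}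
    (hV : ∀ j ≤ k, AnalyticAt ℂ (V j) 0) : ∀ j ≤ k, AnalyticAt ℂ (ctrl i V j) 0 := by
  intro j
  induction j with
  | zero => intro hj; exact (hV 0 hj).deriv
  | succ j ih =>
    intro hj
    have h1 := ih (by omega)
    have h2 : AnalyticAt ℂ (fun t => ctrl i V j t (i (j + 1))) 0 :=
      (ContinuousLinearMap.proj (R := ℂ) (φ := fun _ : Fin n => ℂ) (i (j + 1))).analyticAt _ |>.comp h1
    have h3 : AnalyticAt ℂ (fun t => (Pi.single (i (j + 1)) (ctrl i V j t (i (j + 1))) : Fin n → ℂ))
        0 :=
      (ContinuousLinearMap.single ℂ (fun _ : Fin n => ℂ) (i (j + 1))).analyticAt _ |>.comp h2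
    exact (hV (j + 1) hj).deriv.add h3

theorem analyticAt_apply {f : ℂ → Fin n → ℂ} {x : ℂ} (hf : AnalyticAt ℂ f x) (m : Fin n) :
    AnalyticAt ℂ (fun t => f t m) x :=
  (ContinuousLinearMap.proj (R := ℂ) (φ := fun _ : Fin n => ℂ) m).analyticAt _ |>.comp hf

theorem deriv_apply {f : ℂ → Fin n → ℂ} {x : ℂ} (hf : AnalyticAt ℂ f x) (m : Fin n) :
    deriv (fun t => f t m) x = deriv f x m := by
  have h1 := hf.differentiableAt.hasDerivAt
  exact (hasDerivAt_pi.1 h1 m).deriv

/-- the relations between the components of a prolongation -/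
theorem relations {i : ℕ → Fin n} : ∀ (k : ℕ) (c : ℂ → Coord n k) (V : ℕ → ℂ → Fin n → ℂ),
    (∀ (j : Fin (k + 1)) (t : ℂ), c t j = V j t) → AnalyticAt ℂ c 0 →
    (∀ᶠ t in 𝓝 (0 : ℂ), InChart i (c t)) → IsProlongation i k c →
    (∀ j < k, ∀ᶠ t in 𝓝 (0 : ℂ),
      ctrl i V j t = ctrl i V j t (i (j + 1)) • V (j + 1) t) ∧
    ∀ᶠ t in 𝓝 (0 : ℂ), deriv c t = frame i k (c t) (ctrl i V k t) := by
  intro k
  induction k with
  | zero =>
    intro c V hV hc _ _
    refine ⟨fun j hj => absurd hj (Nat.not_lt_zero j), ?_⟩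
    filter_upwards [hc.eventually_analyticAt] with t ht
    have h1 : deriv c t = fun _ => deriv (V 0) t := by
      have h2 := ht.differentiableAt.hasDerivAt
      funext j
      have h3 := (hasDerivAt_pi.1 h2 j).deriv
      rw [← h3]
      congr 1
      funext s
      rw [hV j s, Fin.eq_zero j]
      rfl
    rw [h1]
    rfl
  | succ k ih =>
    intro c V hV hc hchart hprol
    obtain ⟨hp1, hp2⟩ := hprol
    have hinit : AnalyticAt ℂ (fun t => (Fin.init (c t) : Coord n k)) 0 := by
      have h1 : AnalyticAt ℂ (fun t => (fun j : Fin (k + 1) => c t j.castSucc)) 0 := by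
        apply AnalyticAt.pi
        intro j
        exact (ContinuousLinearMap.proj (R := ℂ) (φ := fun _ : Fin (k + 1 + 1) => Fin n → ℂ)
          j.castSucc).analyticAt _ |>.comp hc
      exact h1
    obtain ⟨h1, h2⟩ := ih (fun t => Fin.init (c t)) V (fun j t => by
      change c t j.castSucc = _
      rw [hV]; rfl) hinit (hchart.mono fun t ht => (inChart_succ.1 ht).1) hp1
    have hrel : ∀ᶠ t in 𝓝 (0 : ℂ),
        ctrl i V k t = ctrl i V k t (i (k + 1)) • V (k + 1) t := by
      filter_upwards [h2, hp2, hchart] with t ht2 ht3 ht4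
      obtain ⟨a, ha⟩ := ht3
      obtain ⟨hc1, hc2⟩ := inChart_succ.1 ht4
      rw [ha, ← frame_smul] at ht2
      have h3 := frame_injective hc1 ht2
      have h4 : c t (Fin.last (k + 1)) = V (k + 1) t := by
        rw [hV]; rfl
      rw [h4] at h3 hc2
      have h5 : ctrl i V k t (i (k + 1)) = a := by
        rw [← h3, Pi.smul_apply, hc2, smul_eq_mul, mul_one]
      rw [h5, ← h3]
    refine ⟨?_, ?_⟩
    · intro j hj
      rcases Nat.lt_succ_iff_lt_or_eq.1 hj with hj | rfl
      · exact h1 j hj
      · exact hrel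
    · have hVk : AnalyticAt ℂ (V (k + 1)) 0 := by
        have h3 : V (k + 1) = fun t => c t (Fin.last (k + 1)) := by
          funext t; rw [hV]; rfl
        rw [h3]
        exact (ContinuousLinearMap.proj (R := ℂ) (φ := fun _ : Fin (k + 1 + 1) => Fin n → ℂ)
          (Fin.last (k + 1))).analyticAt _ |>.comp hc
      have hchart2 : ∀ᶠ t in 𝓝 (0 : ℂ), V (k + 1) t (i (k + 1)) = 1 := by
        filter_upwards [hchart] with t ht
        have := (inChart_succ.1 ht).2
        rw [hV] at this
        exact this
      have hd0 : ∀ᶠ t in 𝓝 (0 : ℂ), deriv (V (k + 1)) t (i (k + 1)) = 0 := by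
        filter_upwards [hchart2.eventually_nhds, hVk.eventually_analyticAt] with t ht1 ht2
        rw [← deriv_apply ht2]
        have h3 : (fun s => V (k + 1) s (i (k + 1))) =ᶠ[𝓝 t] fun _ => (1 : ℂ) := ht1
        rw [h3.deriv_eq, deriv_const]
      filter_upwards [hc.eventually_analyticAt, hinit.eventually_analyticAt, h2, hrel, hd0,
        hVk.eventually_analyticAt] with t ht1 ht2 ht3 ht4 ht5 ht6
      have hcd := ht1.differentiableAt.hasDerivAt
      apply coord_ext
      · rw [frame_succ_init]
        have h3 : (Fin.init (deriv c t) : Coord n k) = deriv (fun s => (Fin.init (c s) : Coord n k)) t := by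
          have h4 := ht2.differentiableAt.hasDerivAt
          funext j
          have h5 := (hasDerivAt_pi.1 h4 j).deriv
          have h6 := (hasDerivAt_pi.1 hcd j.castSucc).deriv
          change deriv c t j.castSucc = _
          rw [← h5, ← h6]
          rfl
        rw [h3, ht3]
        congr 1
        have h7 : ctrl i V (k + 1) t (i (k + 1)) = ctrl i V k t (i (k + 1)) := by
          change deriv (V (k + 1)) t (i (k + 1))
            + (Pi.single (i (k + 1)) (ctrl i V k t (i (k + 1))) : Fin n → ℂ) (i (k + 1)) = _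
          rw [ht5, zero_add, Pi.single_eq_same]
        rw [h7, hV]
        exact ht4
      · rw [frame_succ_last]
        have h6 := (hasDerivAt_pi.1 hcd (Fin.last (k + 1))).deriv
        have h8 : (fun s => c s (Fin.last (k + 1))) = V (k + 1) := by
          funext s; rw [hV]; rfl
        rw [← h6, h8]
        have h7 : ctrl i V (k + 1) t (i (k + 1)) = ctrl i V k t (i (k + 1)) := by
          change deriv (V (k + 1)) t (i (k + 1))
            + (Pi.single (i (k + 1)) (ctrl i V k t (i (k + 1))) : Fin n → ℂ) (i (k + 1)) = _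
          rw [ht5, zero_add, Pi.single_eq_same]
        rw [h7]
        change _ = (deriv (V (k + 1)) t + Pi.single (i (k + 1)) (ctrl i V k t (i (k + 1)))) - _
        rw [add_sub_cancel_right]

end Pool.Agent.R861.MT
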