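import Mathlib
import Pool.Agent.R861.MT.A

/-! Critical submanifolds contain linear spaces. -/

set_option autoImplicit false

open Filter Topology

namespace Pool.Agent.R861.MT

variable {n : ℕ}

/-- a linear subspace contained in the prolongation of the `j`-th fibre -/
def lin (i : ℕ → Fin n) (j : ℕ) {k : ℕ} (p : Coord n k) : Set (Coord n k) :=
  {q | InChart i q ∧ (∀ l : Fin (k + 1), (l : ℕ) < j → q l = p l) ∧
    ∀ l : Fin (k + 1), j < (l : ℕ) → q l (i j) = 0}

theorem frame_chart (i : ℕ → Fin n) (k : ℕ) (q : Coord n k) (u : Fin n → ℂ) (l : Fin (k + 1))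
    (hl : l ≠ 0) : frame i k q u l (i l) = 0 := by
  induction k generalizing u with
  | zero => exact absurd (Fin.eq_zero l) hl
  | succ k ih =>
    induction l using Fin.lastCases with
    | last =>
      rw [frame_succ_last]
      simp
    | cast l =>
      have h1 : frame i (k + 1) q u l.castSucc = (Fin.init (frame i (k + 1) q u) : Coord n k) l :=
        rfl
      rw [h1, frame_succ_init]
      exact ih (Fin.init q) _ l (by rintro rfl; exact hl rfl)

theorem frame_low (i : ℕ → Fin n) (j k : ℕ) (q : Coord n k) (u : Fin n → ℂ) (hj : 1 ≤ j)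
    (hjk : j ≤ k) (hq : ∀ l : Fin (k + 1), j < (l : ℕ) → q l (i j) = 0) (hu : u (i j) = 0)
    (l : Fin (k + 1)) (hl : (l : ℕ) < j) : frame i k q u l = 0 := by
  induction k generalizing u with
  | zero => omega
  | succ k ih =>
    induction l using Fin.lastCases with
    | last => simp at hl; omega
    | cast l =>
      have h1 : frame i (k + 1) q u l.castSucc = (Fin.init (frame i (k + 1) q u) : Coord n k) l :=
        rfl
      rw [h1, frame_succ_init]
      rcases Nat.lt_or_ge k j with h | h
      · have h2 : j = k + 1 := by omega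
        have h3 : u (i (k + 1)) = 0 := h2 ▸ hu
        rw [h3, zero_smul, frame_zero]
        rfl
      · apply ih (Fin.init q) _ h
        · intro l' hl'
          exact hq l'.castSucc hl'
        · rw [Pi.smul_apply, hq (Fin.last (k + 1)) (by simp; omega), smul_zero]
        · exact hl

theorem frame_high (i : ℕ → Fin n) (j k : ℕ) (q : Coord n k) (u : Fin n → ℂ) (hj : 1 ≤ j)
    (hjk : j ≤ k) (hq : ∀ l : Fin (k + 1), j < (l : ℕ) → q l (i j) = 0) (hu : u (i j) = 0)
    (l : Fin (k + 1)) (hl : j < (l : ℕ)) : frame i k q u l (i j) = 0 := by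
  induction k generalizing u with
  | zero => omega
  | succ k ih =>
    induction l using Fin.lastCases with
    | last =>
      rw [frame_succ_last, Pi.sub_apply, hu, zero_sub, neg_eq_zero]
      by_cases h : i j = i (k + 1)
      · rw [h, Pi.single_eq_same, ← h, hu]
      · rw [Pi.single_eq_of_ne h]
    | cast l =>
      have h1 : frame i (k + 1) q u l.castSucc = (Fin.init (frame i (k + 1) q u) : Coord n k) l :=
        rfl
      rw [h1, frame_succ_init]
      have h0 : j < (l : ℕ) := hl
      have h : j ≤ k := by have := l.2; omega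
      apply ih (Fin.init q) _ h
      · intro l' hl'
        exact hq l'.castSucc hl'
      · rw [Pi.smul_apply, hq (Fin.last (k + 1)) (by simp; omega), smul_zero]
      · exact hl

theorem line_mem_lin {i : ℕ → Fin n} {j k : ℕ} {p q : Coord n k} {u : Fin n → ℂ} (hj : 1 ≤ j)
    (hjk : j ≤ k) (hq : q ∈ lin i j p) (hu : u (i j) = 0) (s : ℂ) :
    q + s • frame i k q u ∈ lin i j p := by
  obtain ⟨h1, h2, h3⟩ := hq
  refine ⟨fun l hl => ?_, fun l hl => ?_, fun l hl => ?_⟩
  · rw [Pi.add_apply, Pi.add_apply, Pi.smul_apply, Pi.smul_apply, frame_chart i k q u l hl, h1 l hl,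
      smul_zero, add_zero]
  · rw [Pi.add_apply, Pi.smul_apply, frame_low i j k q u hj hjk h3 hu l hl, h2 l hl, smul_zero,
      add_zero]
  · rw [Pi.add_apply, Pi.add_apply, Pi.smul_apply, Pi.smul_apply,
      frame_high i j k q u hj hjk h3 hu l hl, h3 l hl, smul_zero, add_zero]

theorem tangentTo_of_line {k : ℕ} {M : Set (Coord n k)} {q w : Coord n k}
    (h : ∀ s : ℂ, q + s • w ∈ M) : TangentTo M q w := by
  refine ⟨fun s => q + s • w, ?_, ?_, ?_, Eventually.of_forall h⟩
  · fun_prop
  · simp
  · have h1 : HasDerivAt (fun s : ℂ => q + s • w) ((1 : ℂ) • w) 0 :=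
      ((hasDerivAt_id (0 : ℂ)).smul_const w).const_add q
    rw [h1.deriv, one_smul]

theorem exists_critical {i : ℕ → Fin n} {j k : ℕ} {p : Coord n k} (hj : 1 ≤ j) (hjk : j ≤ k)
    (hp : InChart i p) (hp2 : ∀ l : Fin (k + 1), j < (l : ℕ) → p l (i j) = 0) :
    ∃ M ∈ criticalSubmanifolds i k p, lin i j p ⊆ M := by
  induction k with
  | zero => omega
  | succ k ih =>
    rcases Nat.lt_or_ge k j with h | h
    · refine ⟨fiberThrough i p, Or.inl rfl, ?_⟩
      rintro q ⟨h1, h2, -⟩
      refine ⟨h1, ?_⟩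
      funext l
      exact h2 l.castSucc (by simp; omega)
    · obtain ⟨hp3, -⟩ := inChart_succ.1 hp
      obtain ⟨M, hM, hsub⟩ := ih (p := Fin.init p) h hp3 (fun l hl => hp2 l.castSucc hl)
      have key : lin i j p ⊆ prolong i M := by
        rintro q ⟨h1, h2, h3⟩
        have hq : (Fin.init q : Coord n k) ∈ lin i j (Fin.init p : Coord n k) :=
          ⟨(inChart_succ.1 h1).1, fun l hl => h2 l.castSucc hl, fun l hl => h3 l.castSucc hl⟩
        refine ⟨h1, hsub hq, ?_⟩
        apply tangentTo_of_line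
        intro s
        exact hsub (line_mem_lin hj h hq (h3 (Fin.last (k + 1)) (by simp; omega)) s)
      exact ⟨prolong i M, Or.inr ⟨M, hM, rfl, key ⟨hp, fun _ _ => rfl, hp2⟩⟩, key⟩

theorem regular_coord {i : ℕ → Fin n} {j k : ℕ} {p : Coord n k} {u : Fin n → ℂ} (hj : 1 ≤ j)
    (hjk : j ≤ k) (hp : InChart i p) (hp2 : ∀ l : Fin (k + 1), j < (l : ℕ) → p l (i j) = 0)
    (hreg : IsRegularVector i p (frame i k p u)) : u (i j) ≠ 0 := by
  intro hu
  obtain ⟨M, hM, hsub⟩ := exists_critical hj hjk hp hp2
  apply hreg.2 M hM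
  apply tangentTo_of_line
  intro s
  exact hsub (line_mem_lin hj hjk ⟨hp, fun _ _ => rfl, hp2⟩ hu s)

/-- The converse: vectors tangent to a critical submanifold. -/
theorem critical_tangent {i : ℕ → Fin n} {k : ℕ} {p : Coord n k} {M : Set (Coord n k)}
    (hM : M ∈ criticalSubmanifolds i k p) :
    ∃ j, 1 ≤ j ∧ j ≤ k ∧ ∀ q ∈ M, ∀ u : Fin n → ℂ, TangentTo M q (frame i k q u) → u (i j) = 0 := by
  induction k with
  | zero => exact absurd hM (Set.notMem_empty _)
  | succ k ih =>
    rcases hM with rfl | ⟨M', hM', rfl, -⟩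
    · refine ⟨k + 1, by omega, le_rfl, ?_⟩
      rintro q ⟨hq1, hq2⟩ u ⟨c, hc1, hc2, hc3, hc4⟩
      have h1 : (Fin.init (frame i (k + 1) q u) : Coord n k) = 0 := by
        rw [← hc3]
        funext l
        have h2 := hc1.differentiableAt.hasDerivAt
        have h3 := (hasDerivAt_pi.1 h2 l.castSucc).deriv
        change deriv c 0 l.castSucc = 0
        rw [← h3]
        have h4 : (fun s => c s l.castSucc) =ᶠ[𝓝 0] fun _ => (Fin.init p : Coord n k) l := by
          filter_upwards [hc4] with s hs
          exact congrFun hs.2 l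
        rw [h4.deriv_eq, deriv_const]
      obtain ⟨hc1', hc2'⟩ := inChart_succ.1 hq1
      rw [frame_succ_init] at h1
      have h2 := frame_eq_zero hc1' h1
      have h3 := congrFun h2 (i (k + 1))
      rw [Pi.smul_apply, hc2', smul_eq_mul, mul_one] at h3
      exact h3
    · obtain ⟨j, hj1, hj2, hj3⟩ := ih hM'
      refine ⟨j, hj1, by omega, ?_⟩
      rintro q hq u ⟨c, hc1, hc2, hc3, hc4⟩
      have hlast : ∀ q' ∈ prolong i M', q' (Fin.last (k + 1)) (i j) = 0 := by
        rintro q' ⟨-, h2, h3⟩
        exact hj3 _ h2 _ h3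
      have hne : i j ≠ i (k + 1) := by
        intro h
        have h1 := hlast q hq
        rw [h, (inChart_succ.1 hq.1).2] at h1
        exact one_ne_zero h1
      have h1 : frame i (k + 1) q u (Fin.last (k + 1)) (i j) = 0 := by
        rw [← hc3]
        have h2 := hc1.differentiableAt.hasDerivAt
        have h3 := (hasDerivAt_pi.1 (hasDerivAt_pi.1 h2 (Fin.last (k + 1))) (i j)).deriv
        rw [← h3]
        have h4 : (fun s => c s (Fin.last (k + 1)) (i j)) =ᶠ[𝓝 0] fun _ => (0 : ℂ) := by
          filter_upwards [hc4] with s hs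
          exact hlast _ hs
        rw [h4.deriv_eq, deriv_const]
      rw [frame_succ_last, Pi.sub_apply, Pi.single_eq_of_ne hne, sub_zero] at h1
      exact h1

end Pool.Agent.R861.MT
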