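import Mathlib
import Pool.Agent.R861.MT.B

/-! The recursion for the orders. -/

set_option autoImplicit false

open Filter Topology

namespace Pool.Agent.R861.MT

variable {n : ℕ}

/-- the data extracted from a curve germ -/
structure Data (i : ℕ → Fin n) (k : ℕ) (p : ℕ → Fin n → ℂ) (V U : ℕ → ℂ → Fin n → ℂ) : Prop where
  anV : ∀ j ≤ k, AnalyticAt ℂ (V j) 0
  anU : ∀ j ≤ k, AnalyticAt ℂ (U j) 0
  hp : ∀ j ≤ k, V j 0 = p j
  chart : ∀ j, 1 ≤ j → j ≤ k → ∀ᶠ t in 𝓝 (0 : ℂ), V j t (i j) = 1
  rel : ∀ j < k, ∀ᶠ t in 𝓝 (0 : ℂ), U j t = U j t (i (j + 1)) • V (j + 1) t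
  der : ∀ j < k, ∀ᶠ t in 𝓝 (0 : ℂ),
    U (j + 1) t = deriv (V (j + 1)) t + Pi.single (i (j + 1)) (U j t (i (j + 1)))
  imm : U k 0 ≠ 0
  reg : ∀ j, 1 ≤ j → j ≤ k → (∀ l, j < l → l ≤ k → p l (i j) = 0) → U k 0 (i j) ≠ 0

variable {i : ℕ → Fin n} {k : ℕ} {p : ℕ → Fin n → ℂ} {V U : ℕ → ℂ → Fin n → ℂ}

namespace Data

theorem p_chart (D : Data i k p V U) {j : ℕ} (h1 : 1 ≤ j) (h2 : j ≤ k) : p j (i j) = 1 := by
  rw [← D.hp j h2]
  exact (D.chart j h1 h2).self_of_nhds

theorem ord_U (D : Data i k p V U) {j : ℕ} (hj : j < k) :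
    analyticOrderAt (U j) 0 = analyticOrderAt (fun t => U j t (i (j + 1))) 0 := by
  have h1 : U j =ᶠ[𝓝 0] (fun t => U j t (i (j + 1))) • (V (j + 1)) := D.rel j hj
  have h2 : analyticOrderAt (V (j + 1)) 0 = 0 := by
    rw [analyticOrderAt_eq_zero]
    right
    rw [D.hp (j + 1) hj]
    intro h
    have h3 := D.p_chart (j := j + 1) (by omega) hj
    rw [h] at h3
    exact zero_ne_one h3
  conv_lhs => rw [analyticOrderAt_congr h1]
  rw [analyticOrderAt_smul (analyticAt_apply (D.anU j hj.le) _) (D.anV (j + 1) hj), h2, add_zero]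

theorem ord_step_same (D : Data i k p V U) {j : ℕ} (hj : j < k) :
    analyticOrderAt (fun t => U (j + 1) t (i (j + 1))) 0
      = analyticOrderAt (fun t => U j t (i (j + 1))) 0 := by
  apply analyticOrderAt_congr
  have hVk := D.anV (j + 1) hj
  have hd0 : ∀ᶠ t in 𝓝 (0 : ℂ), deriv (V (j + 1)) t (i (j + 1)) = 0 := by
    filter_upwards [(D.chart (j + 1) (by omega) hj).eventually_nhds, hVk.eventually_analyticAt]
      with t ht1 ht2
    rw [← deriv_apply ht2]
    have h3 : (fun s => V (j + 1) s (i (j + 1))) =ᶠ[𝓝 t] fun _ => (1 : ℂ) := ht1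
    rw [h3.deriv_eq, deriv_const]
  filter_upwards [D.der j hj, hd0] with t ht1 ht2
  rw [ht1, Pi.add_apply, ht2, zero_add, Pi.single_eq_same]

/-- `U_l (m) = a_{l+1} V_{l+1} (m)` -/
theorem ord_coord (D : Data i k p V U) {l : ℕ} (hl : l < k) (m : Fin n) :
    analyticOrderAt (fun t => U l t m) 0
      = analyticOrderAt (U l) 0 + analyticOrderAt (fun t => V (l + 1) t m) 0 := by
  have h1 : (fun t => U l t m) =ᶠ[𝓝 0]
      (fun t => U l t (i (l + 1))) * (fun t => V (l + 1) t m) := by
    filter_upwards [D.rel l hl] with t ht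
    conv_lhs => rw [ht]
    rfl
  rw [analyticOrderAt_congr h1, analyticOrderAt_mul (analyticAt_apply (D.anU l hl.le) _)
    (analyticAt_apply (D.anV (l + 1) hl) _), ← D.ord_U hl]

theorem ord_V_ne (D : Data i k p V U) {l : ℕ} (hl : l < k) {m : Fin n} (hm : p (l + 1) m ≠ 0) :
    analyticOrderAt (fun t => V (l + 1) t m) 0 = 0 := by
  rw [analyticOrderAt_eq_zero]
  right
  rw [D.hp (l + 1) hl]
  exact hm

theorem ord_V_eq (D : Data i k p V U) {l : ℕ} (hl : l < k) {m : Fin n} (hm : p (l + 1) m = 0) :
    analyticOrderAt (fun t => V (l + 1) t m) 0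
      = analyticOrderAt (fun t => U (l + 1) t m) 0 + 1 := by
  have hne : m ≠ i (l + 1) := by
    rintro rfl
    rw [D.p_chart (by omega) hl] at hm
    exact one_ne_zero hm
  have hV := analyticAt_apply (D.anV (l + 1) hl) m
  have h1 := hV.analyticOrderAt_deriv_add_one
  have h2 : (fun t => V (l + 1) t m - V (l + 1) 0 m) = fun t => V (l + 1) t m := by
    funext t
    rw [D.hp (l + 1) hl, hm, sub_zero]
  rw [h2] at h1
  rw [← h1]
  congr 1
  apply analyticOrderAt_congr
  filter_upwards [D.der l hl, (D.anV (l + 1) hl).eventually_analyticAt] with t ht ht2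
  rw [ht, Pi.add_apply, Pi.single_eq_of_ne hne, add_zero, deriv_apply ht2]

end Data

variable {V' U' : ℕ → ℂ → Fin n → ℂ}

theorem ord_eq (D : Data i k p V U) (D' : Data i k p V' U') :
    ∀ d j, j + d = k → analyticOrderAt (U j) 0 = analyticOrderAt (U' j) 0 := by
  intro d
  induction d using Nat.strong_induction_on with
  | _ d ih =>
    intro j hjd
    rcases Nat.eq_zero_or_pos d with rfl | hd
    · rw [add_zero] at hjd
      subst hjd
      rw [analyticOrderAt_eq_zero.2 (Or.inr D.imm), analyticOrderAt_eq_zero.2 (Or.inr D'.imm)]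
    · have hjk : j < k := by omega
      rw [D.ord_U hjk, D'.ord_U hjk, ← D.ord_step_same hjk, ← D'.ord_step_same hjk]
      -- the inner induction
      have inner : ∀ e l, l + e = k → j + 1 ≤ l → (∀ l', j + 1 < l' → l' ≤ l →
          p l' (i (j + 1)) = 0) → analyticOrderAt (fun t => U l t (i (j + 1))) 0
            = analyticOrderAt (fun t => U' l t (i (j + 1))) 0 := by
        intro e
        induction e with
        | zero =>
          intro l hl hjl hz
          rw [add_zero] at hl
          subst hl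
          have hA : analyticOrderAt (fun t => U l t (i (j + 1))) 0 = 0 :=
            analyticOrderAt_eq_zero.2 (Or.inr (D.reg (j + 1) (by omega) hjl hz))
          have hB : analyticOrderAt (fun t => U' l t (i (j + 1))) 0 = 0 :=
            analyticOrderAt_eq_zero.2 (Or.inr (D'.reg (j + 1) (by omega) hjl hz))
          rw [hA, hB]
        | succ e ihe =>
          intro l hl hjl hz
          have hlk : l < k := by omega
          rw [D.ord_coord hlk, D'.ord_coord hlk, ih (k - l) (by omega) l (by omega)]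
          congr 1
          by_cases hm : p (l + 1) (i (j + 1)) = 0
          · rw [D.ord_V_eq hlk hm, D'.ord_V_eq hlk hm]
            congr 1
            apply ihe (l + 1) (by omega) (by omega)
            intro l' h1 h2
            rcases Nat.lt_or_ge l l' with h3 | h3
            · have : l' = l + 1 := by omega
              rw [this]; exact hm
            · exact hz l' h1 h3
          · rw [D.ord_V_ne hlk hm, D'.ord_V_ne hlk hm]
      exact inner (k - (j + 1)) (j + 1) (by omega) le_rfl (fun l' h1 h2 => by omega)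

theorem ord_ne_top (D : Data i k p V U) :
    ∀ d j, j + d = k → analyticOrderAt (U j) 0 ≠ ⊤ := by
  intro d
  induction d using Nat.strong_induction_on with
  | _ d ih =>
    intro j hjd
    rcases Nat.eq_zero_or_pos d with rfl | hd
    · rw [add_zero] at hjd
      subst hjd
      rw [analyticOrderAt_eq_zero.2 (Or.inr D.imm)]
      exact ENat.zero_ne_top
    · have hjk : j < k := by omega
      rw [D.ord_U hjk, ← D.ord_step_same hjk]
      -- the inner induction
      have inner : ∀ e l, l + e = k → j + 1 ≤ l → (∀ l', j + 1 < l' → l' ≤ l →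
          p l' (i (j + 1)) = 0) → analyticOrderAt (fun t => U l t (i (j + 1))) 0 ≠ ⊤ := by
        intro e
        induction e with
        | zero =>
          intro l hl hjl hz
          rw [add_zero] at hl
          subst hl
          have hA : analyticOrderAt (fun t => U l t (i (j + 1))) 0 = 0 :=
            analyticOrderAt_eq_zero.2 (Or.inr (D.reg (j + 1) (by omega) hjl hz))
          rw [hA]
          exact ENat.zero_ne_top
        | succ e ihe =>
          intro l hl hjl hz
          have hlk : l < k := by omega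
          rw [D.ord_coord hlk]
          apply WithTop.add_ne_top.2
          refine ⟨ih (k - l) (by omega) l (by omega), ?_⟩
          by_cases hm : p (l + 1) (i (j + 1)) = 0
          · rw [D.ord_V_eq hlk hm]
            apply WithTop.add_ne_top.2
            refine ⟨?_, ENat.one_ne_top⟩
            apply ihe (l + 1) (by omega) (by omega)
            intro l' h1 h2
            rcases Nat.lt_or_ge l l' with h3 | h3
            · have : l' = l + 1 := by omega
              rw [this]; exact hm
            · exact hz l' h1 h3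
          · rw [D.ord_V_ne hlk hm]
            exact ENat.zero_ne_top
      exact inner (k - (j + 1)) (j + 1) (by omega) le_rfl (fun l' h1 h2 => by omega)

/-- The data of a germ. -/
theorem exists_data' {i : ℕ → Fin n} {k : ℕ} {p : Coord n k} {γ : ℂ → Fin n → ℂ}
    {c : ℂ → Coord n k} (hc : AnalyticAt ℂ c 0)
    (hcc : ∀ᶠ t in 𝓝 (0 : ℂ), InChart i (c t) ∧ c t 0 = γ t)
    (hprol : IsProlongation i k c) (hc0 : c 0 = p) (hreg : IsRegularVector i p (deriv c 0)) :
    ∃ V U : ℕ → ℂ → Fin n → ℂ,
      Data i k (fun j => if h : j < k + 1 then p ⟨j, h⟩ else 0) V U ∧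
      mult γ = analyticOrderAt (U 0) 0 + 1 := by
  set V : ℕ → ℂ → Fin n → ℂ := fun j t => if h : j < k + 1 then c t ⟨j, h⟩ else 0 with hV
  have hchart : ∀ᶠ t in 𝓝 (0 : ℂ), InChart i (c t) := hcc.mono fun t ht => ht.1
  have hVc : ∀ (j : Fin (k + 1)) (t : ℂ), c t j = V j t := by
    intro j t
    rw [hV]
    simp only
    rw [dif_pos j.2]
  have hVa : ∀ j ≤ k, AnalyticAt ℂ (V j) 0 := by
    intro j hj
    have h1 : V j = fun t => c t ⟨j, by omega⟩ := by
      funext t
      rw [hVc]
    rw [h1]
    exact (ContinuousLinearMap.proj (R := ℂ) (φ := fun _ : Fin (k + 1) => Fin n → ℂ)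
      ⟨j, by omega⟩).analyticAt _ |>.comp hc
  obtain ⟨hrel, hder⟩ := relations k c V hVc hc hchart hprol
  have hp0 : InChart i p := hc0 ▸ hchart.self_of_nhds
  have hder0 : deriv c 0 = frame i k p (ctrl i V k 0) := by
    rw [hder.self_of_nhds, hc0]
  rw [hder0] at hreg
  refine ⟨V, ctrl i V, ⟨hVa, analyticAt_ctrl i hVa, ?_, ?_, hrel, ?_, ?_, ?_⟩, ?_⟩
  · intro j hj
    rw [hV]
    simp only
    rw [dif_pos (by omega), dif_pos (by omega), hc0]
  · intro j h1 h2
    filter_upwards [hchart] with t ht
    have h3 := ht ⟨j, by omega⟩ (by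
      intro h
      have := congrArg Fin.val h
      simp at this
      omega)
    rw [hVc] at h3
    exact h3
  · intro j _
    exact Eventually.of_forall fun t => rfl
  · intro h
    apply hreg.1
    rw [h, frame_zero]
  · intro j h1 h2 h3
    apply regular_coord h1 h2 hp0 _ hreg
    intro l hl
    have := h3 l hl (by have := l.2; omega)
    rw [dif_pos l.2] at this
    exact this
  · have h1 : γ =ᶠ[𝓝 0] V 0 := by
      filter_upwards [hcc] with t ht
      rw [← ht.2, hVc]
      rfl
    have h2 := (hVa 0 (Nat.zero_le k)).analyticOrderAt_deriv_add_one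
    unfold mult
    rw [show ctrl i V 0 = deriv (V 0) from rfl, h2]
    apply analyticOrderAt_congr
    filter_upwards [h1] with t ht
    rw [ht, h1.self_of_nhds]

theorem exists_data {i : ℕ → Fin n} {k : ℕ} {p : Coord n k} {γ : ℂ → Fin n → ℂ}
    (hγ : γ ∈ Germ i p) : ∃ V U : ℕ → ℂ → Fin n → ℂ,
      Data i k (fun j => if h : j < k + 1 then p ⟨j, h⟩ else 0) V U ∧
      mult γ = analyticOrderAt (U 0) 0 + 1 := by
  obtain ⟨hγa, hγn, c, hc, hcc, hprol, hc0, hreg⟩ := hγ
  exact exists_data' hc hcc hprol hc0 hreg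

theorem mult_eq {i : ℕ → Fin n} {k : ℕ} {p : Coord n k} {γ γ' : ℂ → Fin n → ℂ}
    (hγ : γ ∈ Germ i p) (hγ' : γ' ∈ Germ i p) : mult γ = mult γ' := by
  obtain ⟨V, U, D, h⟩ := exists_data hγ
  obtain ⟨V', U', D', h'⟩ := exists_data hγ'
  rw [h, h', ord_eq D D' k 0 (by omega)]

theorem exists_primitive {W : ℂ → Fin n → ℂ} (hW : Differentiable ℂ W) (y : Fin n → ℂ) :
    ∃ g : ℂ → Fin n → ℂ, g 0 = y ∧ ∀ t, HasDerivAt g (W t) t := by
  obtain ⟨g, h1, h2⟩ := hW.isExactOn_univ.with_val_at 0 y
  exact ⟨g, h1, fun t => h2 t (Set.mem_univ t)⟩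

theorem exists_integral (i : ℕ → Fin n) : ∀ (k : ℕ) (p : Coord n k), InChart i p →
    ∀ W : ℂ → Fin n → ℂ, Differentiable ℂ W → ∃ c : ℂ → Coord n k, c 0 = p ∧
      (∀ t, InChart i (c t)) ∧ IsProlongation i k c ∧
      ∀ t, HasDerivAt c (frame i k (c t) (W t)) t := by
  intro k
  induction k with
  | zero =>
    intro p _ W hW
    obtain ⟨g, hg0, hg⟩ := exists_primitive hW (p 0)
    refine ⟨fun t _ => g t, ?_, ?_, trivial, ?_⟩
    · funext j
      rw [Fin.eq_zero j]
      exact hg0
    · intro t j hj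
      exact absurd (Fin.eq_zero j) hj
    · intro t
      exact hasDerivAt_pi.2 fun _ => hg t
  | succ k ih =>
    intro p hp W hW
    obtain ⟨hp1, hp2⟩ := inChart_succ.1 hp
    have hW1 : ∀ m, Differentiable ℂ (fun t => W t m) := fun m t => differentiableAt_pi.1 (hW t) m
    have hsingle : Differentiable ℂ
        (fun t => (Pi.single (i (k + 1)) (W t (i (k + 1))) : Fin n → ℂ)) :=
      (ContinuousLinearMap.single ℂ (fun _ : Fin n => ℂ) (i (k + 1))).differentiable.comp (hW1 _)
    obtain ⟨v, hv0, hv⟩ := exists_primitive (hW.sub hsingle) (p (Fin.last (k + 1)))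
    have hvd : Differentiable ℂ v := fun t => (hv t).differentiableAt
    have hv1 : ∀ t, v t (i (k + 1)) = 1 := by
      have h1 : ∀ t, HasDerivAt (fun s => v s (i (k + 1))) 0 t := by
        intro t
        have h2 := hasDerivAt_pi.1 (hv t) (i (k + 1))
        simpa using h2
      have h2 : ∀ t, v t (i (k + 1)) = v 0 (i (k + 1)) := fun t =>
        is_const_of_deriv_eq_zero (fun s => (h1 s).differentiableAt) (fun s => (h1 s).deriv) t 0
      intro t
      rw [h2, hv0, hp2]
    obtain ⟨c, hc0, hcc, hcp, hc⟩ := ih (Fin.init p) hp1 (fun t => W t (i (k + 1)) • v t)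
      ((hW1 _).smul hvd)
    set c' : ℂ → Coord n (k + 1) := fun t => Fin.snoc (α := fun _ => Fin n → ℂ) (c t) (v t) with hc'
    have hinit : ∀ t, (Fin.init (c' t) : Coord n k) = c t := fun t => Fin.init_snoc _ _
    have hlast : ∀ t, c' t (Fin.last (k + 1)) = v t := fun t => Fin.snoc_last _ _
    refine ⟨c', ?_, ?_, ⟨?_, ?_⟩, ?_⟩
    · apply coord_ext
      · rw [hinit, hc0]
      · rw [hlast, hv0]
    · intro t
      rw [inChart_succ, hinit, hlast]
      exact ⟨hcc t, hv1 t⟩
    · have : (fun t => (Fin.init (c' t) : Coord n k)) = c := funext hinit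
      rw [this]
      exact hcp
    · refine Eventually.of_forall fun t => ⟨W t (i (k + 1)), ?_⟩
      have : (fun t => (Fin.init (c' t) : Coord n k)) = c := funext hinit
      rw [this, (hc t).deriv, hlast, hinit, frame_smul]
    · intro t
      rw [hasDerivAt_pi]
      intro j
      induction j using Fin.lastCases with
      | last =>
        have h1 : (fun s => c' s (Fin.last (k + 1))) = v := funext hlast
        rw [h1, frame_succ_last]
        exact hv t
      | cast j =>
        have h1 : (fun s => c' s j.castSucc) = fun s => c s j := by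
          funext s
          rw [← hinit]
          rfl
        have h2 : frame i (k + 1) (c' t) (W t) j.castSucc
            = (Fin.init (frame i (k + 1) (c' t) (W t)) : Coord n k) j := rfl
        rw [h1, h2, frame_succ_init, hinit, hlast]
        exact hasDerivAt_pi.1 (hc t) j

theorem germ_nonempty (i : ℕ → Fin n) {k : ℕ} {p : Coord n k} (hp : InChart i p) :
    (Germ i p).Nonempty := by
  obtain ⟨c, hc0, hcc, hcp, hc⟩ := exists_integral i k p hp (fun _ _ => 1)
    (differentiable_const _)
  have hd : Differentiable ℂ c := fun t => (hc t).differentiableAt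
  have ha : AnalyticAt ℂ c 0 := hd.analyticAt 0
  have hreg : IsRegularVector i p (deriv c 0) := by
    rw [(hc 0).deriv, hc0]
    refine ⟨?_, ?_⟩
    · intro h
      have h1 := frame_eq_zero hp h
      exact one_ne_zero (congrFun h1 (i 0))
    · intro M hM hT
      obtain ⟨j, _, _, hj⟩ := critical_tangent hM
      have hpM : p ∈ M := by
        obtain ⟨c₁, _, h2, _, h4⟩ := hT
        have := h4.self_of_nhds
        rwa [h2] at this
      exact one_ne_zero (hj p hpM _ hT)
  refine ⟨fun t => c t 0, ?_, ?_, c, ha, Eventually.of_forall fun t => ⟨hcc t, rfl⟩, hcp, hc0,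
    hreg⟩
  · exact (ContinuousLinearMap.proj (R := ℂ) (φ := fun _ : Fin (k + 1) => Fin n → ℂ)
      0).analyticAt _ |>.comp ha
  · intro h
    obtain ⟨V, U, D, hm⟩ := exists_data' (γ := fun t => c t 0) ha
      (Eventually.of_forall fun t => ⟨hcc t, rfl⟩) hcp hc0 hreg
    have h1 : mult (fun t => c t 0) = ⊤ := by
      unfold mult
      rw [analyticOrderAt_eq_top]
      filter_upwards [h] with t ht
      rw [ht, sub_self]
    rw [h1] at hm
    have h2 := ord_ne_top D k 0 (by omega)
    exact (WithTop.add_ne_top.2 ⟨h2, ENat.one_ne_top⟩) hm.symm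

end Pool.Agent.R861.MT
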